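import Pool.Agent.Helper21_LRG.RBM
import Pool.Agent.Helper27_LRG.DER
import Pool.Agent.Helper77_LRG.ETA
import Pool.Agent.Helper81_LRG.SNO
import Pool.Agent.Helper40_LRG.VAL
import Pool.Agent.Helper85_LRG.TRM
import Pool.Agent.Helper95_LRG.LOP
import Pool.Agent.Helper40_LRG.CST
import Pool.Agent.Helper82_LRG.SEL
import Pool.Agent.Helper21_LRG.SCH
import Pool.Agent.Helper40_LRG.PWR
import Pool.Agent.Helper70_LRG.MON
import Pool.Agent.Helper25_LRG.EXB
import Pool.Agent.Helper38_LRG.RLN
import Pool.Agent.Helper81_LRG.DPM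
import Pool.Agent.Helper27_LRG.RLF
import Pool.Agent.Helper65_LRG.REL

/-!
# LRG, block R: assembly (selection of a chart, relations on a chart)
-/

namespace Pool.Agent.LRG.H74

theorem selStatement : R.SelStatement :=
  H82.sel H21.rbm (H77.eta H21.rbm H27.der) H81.sno H85.trm
    (H95.lop (H40.val H81.sno) H85.trm) H40.cst

theorem dpmStatement : R.DpmStatement := H81.dpm (H38.rln (H70.mon H40.pwr) H25.exb)

theorem schConcl : R2.SchConcl := H21.sch selStatement

theorem rlfConcl : R2.RlfConcl := H27.rlf dpmStatement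

theorem relConcl : R2.RelConcl := H65.rel rlfConcl

end Pool.Agent.LRG.H74
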