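import Pool.Agent.LRG.StmtsK

/-!
# LRG, row GRM: the Gram determinant in the values at the roots
-/

set_option autoImplicit false

open Polynomial

namespace Pool.Agent.LRG.H74

open K

theorem gram_entry (lag : LagStmt) {E : Type} [Field E] {n r : ℕ} (y : Ix n r → E)
    (x : Fin r → Fin n → E) (l : Fin r → E[X]) (hx : ∀ i, Function.Injective (x i))
    (hl : ∀ i m, n ≤ m → (l i).coeff m = 0) (i i' : Fin r) :
    (∏ j, lagD (x i) j) * (∏ j, lagD (x i') j) * gram y l i i' =
      ∑ j : Fin n, ∑ j' : Fin n,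
        cc y x i i' j j' * (l i).eval (x i j) * (l i').eval (x i' j') := by
  have h1 : (∏ j, lagD (x i) j) * (∏ j, lagD (x i') j) * gram y l i i' =
      ∑ a : Fin n, ∑ b : Fin n, (∑ j, (lagP (x i) j).coeff a * lagE (x i) j *
        (l i).eval (x i j)) * (∑ j', (lagP (x i') j').coeff b * lagE (x i') j' *
        (l i').eval (x i' j')) * y (Sum.inr (i, i', a, b)) := by
    rw [gram, Matrix.of_apply, Finset.mul_sum]
    refine Finset.sum_congr rfl fun a _ => ?_
    rw [Finset.mul_sum]
    refine Finset.sum_congr rfl fun b _ => ?_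
    rw [← lag E n (x i) (l i) (hx i) (hl i) a, ← lag E n (x i') (l i') (hx i') (hl i') b]
    ring
  rw [h1]
  have h2 : ∀ a b : Fin n, (∑ j, (lagP (x i) j).coeff a * lagE (x i) j *
        (l i).eval (x i j)) * (∑ j', (lagP (x i') j').coeff b * lagE (x i') j' *
        (l i').eval (x i' j')) * y (Sum.inr (i, i', a, b)) =
      ∑ j, ∑ j', (lagP (x i) j).coeff a * (lagP (x i') j').coeff b *
        y (Sum.inr (i, i', a, b)) * (lagE (x i) j * lagE (x i') j' *
        (l i).eval (x i j) * (l i').eval (x i' j')) := by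
    intro a b
    rw [Finset.sum_mul_sum, Finset.sum_mul]
    refine Finset.sum_congr rfl fun j _ => ?_
    rw [Finset.sum_mul]
    refine Finset.sum_congr rfl fun j' _ => ?_
    ring
  simp only [h2]
  calc ∑ a : Fin n, ∑ b : Fin n, ∑ j, ∑ j', (lagP (x i) j).coeff a *
        (lagP (x i') j').coeff b * y (Sum.inr (i, i', a, b)) *
        (lagE (x i) j * lagE (x i') j' * (l i).eval (x i j) * (l i').eval (x i' j'))
      = ∑ a : Fin n, ∑ j, ∑ j', ∑ b : Fin n, (lagP (x i) j).coeff a *
        (lagP (x i') j').coeff b * y (Sum.inr (i, i', a, b)) *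
        (lagE (x i) j * lagE (x i') j' * (l i).eval (x i j) * (l i').eval (x i' j')) := by
        refine Finset.sum_congr rfl fun a _ => ?_
        rw [Finset.sum_comm]
        refine Finset.sum_congr rfl fun j _ => ?_
        rw [Finset.sum_comm]
    _ = ∑ j, ∑ j', ∑ a : Fin n, ∑ b : Fin n, (lagP (x i) j).coeff a *
        (lagP (x i') j').coeff b * y (Sum.inr (i, i', a, b)) *
        (lagE (x i) j * lagE (x i') j' * (l i).eval (x i j) * (l i').eval (x i' j')) := by
        rw [Finset.sum_comm]
        refine Finset.sum_congr rfl fun j _ => ?_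
        rw [Finset.sum_comm]
    _ = _ := by
        refine Finset.sum_congr rfl fun j _ => Finset.sum_congr rfl fun j' _ => ?_
        rw [cc]
        simp only [← Finset.sum_mul]
        ring

theorem grm (lag : LagStmt) : GrmStmt := by
  intro E _ n r y x l hx hl hdet
  have h1 : (Matrix.of fun i i' : Fin r => ∑ j : Fin n, ∑ j' : Fin n,
      cc y x i i' j j' * (l i).eval (x i j) * (l i').eval (x i' j')) =
      Matrix.of fun i i' : Fin r => (∏ j, lagD (x i) j) *
        (Matrix.of fun i i' : Fin r => (∏ j, lagD (x i') j) * gram y l i i') i i' := by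
    ext i i'
    rw [Matrix.of_apply, Matrix.of_apply, Matrix.of_apply, ← gram_entry lag y x l hx hl]
    ring
  have h2 := Matrix.det_mul_column (fun i : Fin r => ∏ j, lagD (x i) j)
    (Matrix.of fun i i' : Fin r => (∏ j, lagD (x i') j) * gram y l i i')
  have h3 := Matrix.det_mul_row (fun i : Fin r => ∏ j, lagD (x i) j) (gram y l)
  rw [h1]
  refine h2.trans ?_
  rw [h3, hdet, mul_zero, mul_zero]

end Pool.Agent.LRG.H74
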