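import Pool.Agent.LRG.StmtsK

/-!
# LRG, row KOL: Kolchin and Ostrowski on an arc
-/

set_option autoImplicit false

open Polynomial

namespace Pool.Agent.LRG.H74

open K

theorem gram_map {S S' : Type} [CommRing S] [CommRing S'] (f : S →+* S') {n r : ℕ}
    (y : Ix n r → S) (l : Fin r → S[X]) :
    (gram y l).map f = gram (fun s => f (y s)) (fun i => (l i).map f) := by
  ext i i'
  simp only [gram, Matrix.map_apply, Matrix.of_apply, map_sum, map_mul, Polynomial.coeff_map]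

theorem kol (_chm : ChmStmt) (lgv : LgvStmt) (grm : GrmStmt) (alx : AlxStmt) (ain : AinStmt)
    (bzv : BzvStmt) (tpd : TpdStmt) : KolConcl := by
  intro p _ n r z₀ e M F hM hU ξ hξ hV Ω _ _ _ D x hA hinj hx0
  classical
  obtain ⟨φ, hφX, hφF⟩ := hV
  obtain ⟨y, hy⟩ : ∃ y : Ix n r → PowerSeries ℤ_[p],
      y = fun s => (z₀ s : PowerSeries ℤ_[p]) + (p : PowerSeries ℤ_[p]) ^ 2 * ξ s := ⟨_, rfl⟩
  obtain ⟨w, b, l, hw, hlog, hdeg, hdet⟩ := hU (PowerSeries ℤ_[p]) φ y (fun s => by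
    rw [hy, hφX])
  rw [hφF] at hdet
  have hMΩ : (M : Ω) ≠ 0 := by exact_mod_cast hM.ne'
  obtain ⟨f, hf⟩ : ∃ f : PowerSeries ℤ_[p] →+* Ω, f = algebraMap (PowerSeries ℤ_[p]) Ω := ⟨_, rfl⟩
  have hyO : (fun s => f (y s)) = yO z₀ ξ Ω := by
    funext s
    rw [hy, hf]
    simp only [yO, map_add, map_mul, map_pow, map_intCast, map_natCast]
  have hdet2 : (gram (yO z₀ ξ Ω) (fun i => (l i).map f)).det = 0 := by
    rw [← hyO, ← gram_map]
    have h1 := congrArg f hdet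
    rw [map_zero, RingHom.map_det] at h1
    exact h1.symm
  have hev : ∀ i j, ((l i).map f).eval (x i j) = aeval (x i j) (l i) := by
    intro i j
    rw [hf, Polynomial.eval_map_algebraMap]
  have hG := grm Ω n r (yO z₀ ξ Ω) x (fun i => (l i).map f) hinj (by
    intro i m hm
    rw [Polynomial.coeff_map, hdeg i m hm, map_zero]) hdet2
  have hL := lgv p n r z₀ e ξ Ω D x hA hinj hx0 y (fun s => by rw [hy]) M w b l hM hw hlog
  -- logarithms
  obtain ⟨u, hu⟩ : ∃ u : Fin r × Fin n → Ω, u = fun k => x k.1 k.2 := ⟨_, rfl⟩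
  obtain ⟨Y, hY⟩ : ∃ Y : Fin r × Fin n → Ω, Y = fun k => aeval (x k.1 k.2) (l k.1) / (M : Ω) :=
    ⟨_, rfl⟩
  have hu0 : ∀ k, u k ≠ 0 := by
    intro k
    rw [hu]
    exact hx0 _ _
  have hYd : ∀ k, D (Y k) = D (u k) / u k := by
    intro k
    have h1 : (M : Ω) * Y k = aeval (x k.1 k.2) (l k.1) := by
      rw [hY]
      exact mul_div_cancel₀ _ hMΩ
    have h2 := congrArg D h1
    rw [Derivation.leibniz, Derivation.map_natCast, smul_zero, add_zero, smul_eq_mul, hL] at h2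
    rw [hu]
    exact mul_left_cancel₀ hMΩ h2
  obtain ⟨q, B, N, hBN, hind, hBz, hBk⟩ := bzv Ω D (Fin r × Fin n) u Y hu0 hYd
  obtain ⟨T, hT⟩ : ∃ T : Ω, T = algebraMap (PowerSeries ℤ_[p]) Ω PowerSeries.X := ⟨_, rfl⟩
  have hDT : D T ≠ 0 := by
    rw [hT, hA.der]
    have h1 : PowerSeries.derivative ℤ_[p] (PowerSeries.X : PowerSeries ℤ_[p]) = 1 :=
      PowerSeries.derivative_X
    rw [h1, map_one]
    exact one_ne_zero
  obtain ⟨hax, hacc⟩ := alx p n r z₀ e ξ Ω D x hA hξ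
  rw [← hT] at hax hacc
  have hprod : ∀ m : Fin r × Fin n → ℤ, IsAlgebraic (LUB.Fld D T) (∏ k, u k ^ m k) := by
    intro m
    have h1 : ∀ k, u k ∈ algebraicClosure (LUB.Fld D T) Ω := fun k => by
      rw [mem_algebraicClosure_iff, hu]
      exact hax _ _
    exact (mem_algebraicClosure_iff).1 (prod_mem fun k _ => zpow_mem (h1 k) _)
  obtain ⟨A, hAm, hai⟩ := ain Ω D T hDT q (fun l => ∏ k, u k ^ B l k)
    (fun l => ∑ k, (B l k : Ω) * Y k)
    (fun l => Finset.prod_ne_zero_iff.2 fun k _ => zpow_ne_zero _ (hu0 k))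
    (fun l => hprod (B l)) hBz hind
  have hcon : ∀ a : Ω, D a = 0 → a ∈ A := by
    intro a ha
    rw [hAm]
    exact isAlgebraic_algebraMap (⟨a, Subfield.subset_closure (Or.inl ha)⟩ : LUB.Fld D T)
  refine ⟨q, B, N, ?_, ?_⟩
  · intro k
    have h1 := hBN k
    rw [hu] at h1
    exact h1
  · have h1 := tpd Ω A n r q (fun l => ∑ k, (B l k : Ω) * Y k) hai
      (fun i i' j j' => ⟨cc (yO z₀ ξ Ω) x i i' j j', (hAm _).2 (hacc i i' j j')⟩)
      (fun i j => ⟨Y (i, j) - ∑ l, (N (i, j) l : Ω) * ∑ k', (B l k' : Ω) * Y k',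
        hcon _ (hBk (i, j))⟩) N ?_
    · intro Z
      exact h1 Z
    · have h2 : (Matrix.of fun i i' : Fin r => ∑ j : Fin n, ∑ j' : Fin n,
          algebraMap A Ω ⟨cc (yO z₀ ξ Ω) x i i' j j', (hAm _).2 (hacc i i' j j')⟩ *
          (algebraMap A Ω ⟨Y (i, j) - ∑ l, (N (i, j) l : Ω) * ∑ k', (B l k' : Ω) * Y k',
            hcon _ (hBk (i, j))⟩ + ∑ l, (N (i, j) l : Ω) * ∑ k, (B l k : Ω) * Y k) *
          (algebraMap A Ω ⟨Y (i', j') - ∑ l, (N (i', j') l : Ω) * ∑ k', (B l k' : Ω) * Y k',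
            hcon _ (hBk (i', j'))⟩ + ∑ l, (N (i', j') l : Ω) * ∑ k, (B l k : Ω) * Y k)) =
          (((M : Ω) ^ 2)⁻¹) • (Matrix.of fun i i' : Fin r => ∑ j : Fin n, ∑ j' : Fin n,
            cc (yO z₀ ξ Ω) x i i' j j' * ((l i).map f).eval (x i j) *
              ((l i').map f).eval (x i' j')) := by
        ext i i'
        rw [Matrix.smul_apply, Matrix.of_apply, Matrix.of_apply, smul_eq_mul, Finset.mul_sum]
        refine Finset.sum_congr rfl fun j _ => ?_
        rw [Finset.mul_sum]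
        refine Finset.sum_congr rfl fun j' _ => ?_
        rw [hev, hev]
        have h3 : ∀ (i : Fin r) (j : Fin n),
            (algebraMap A Ω ⟨Y (i, j) - ∑ l, (N (i, j) l : Ω) * ∑ k', (B l k' : Ω) * Y k',
            hcon _ (hBk (i, j))⟩ + ∑ l, (N (i, j) l : Ω) * ∑ k, (B l k : Ω) * Y k) =
            aeval (x i j) (l i) / (M : Ω) := by
          intro i j
          have h4 : algebraMap A Ω ⟨Y (i, j) - ∑ l, (N (i, j) l : Ω) * ∑ k', (B l k' : Ω) * Y k',
            hcon _ (hBk (i, j))⟩ = Y (i, j) - ∑ l, (N (i, j) l : Ω) * ∑ k', (B l k' : Ω) * Y k' :=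
            rfl
          rw [h4, sub_add_cancel, hY]
        rw [h3, h3]
        have h5 : algebraMap A Ω ⟨cc (yO z₀ ξ Ω) x i i' j j', (hAm _).2 (hacc i i' j j')⟩ =
          cc (yO z₀ ξ Ω) x i i' j j' := rfl
        rw [h5]
        field_simp
      rw [h2, Matrix.det_smul, hG, mul_zero]

end Pool.Agent.LRG.H74
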