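import Pool.Agent.Helper21_LRG.CHM
import Pool.Agent.Helper48_LRG.LGV
import Pool.Agent.Helper52_LRG.LAG
import Pool.Agent.Helper74_LRG.GRM
import Pool.Agent.Helper94_LRG.ALX
import Pool.Agent.Helper42_LRG.AIN
import Pool.Agent.Helper25_LRG.BZV
import Pool.Agent.Helper70_LRG.TPD
import Pool.Agent.Helper74_LRG.KOL
import Pool.Agent.Helper69_LUB.LGD
import Pool.Agent.Helper35_LUB.BAS
import Pool.Agent.Helper22_LUB.OSC
import Pool.Agent.Helper61_LUB.OST
import Pool.Agent.Helper97_LUB.OSA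
import Pool.Agent.Helper86_LUB.OSB

/-!
# LRG, block K: assembly of `KolConcl`
-/

set_option autoImplicit false

namespace Pool.Agent.LRG.H74

theorem oscConcl : K.OscConcl := LUB.H22.osc (LUB.H61.ost LUB.H97.osa LUB.H86.osb)

theorem kolConcl : KolConcl :=
  kol H21.chm (H48.lgv H21.chm LUB.H69.lgd) (grm H52.lag) (H94.alx H21.chm) (H42.ain oscConcl)
    (H25.bzv LUB.H35.bas) H70.tpd

end Pool.Agent.LRG.H74
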